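import Mathlib
import Pool.Agent.Helper35.HSF.StB

/-! # Project HSF, module BLJ: jets of a normal curvature along a graph -/

set_option autoImplicit false

namespace Helper28.HSF

open Helper35.HSF Helper35.MS Helper35.PI Helper35.PI2 Helper32.CL
open scoped ContDiff Manifold Topology ENNReal BigOperators
open MeasureTheory Set Filter

section aux

variable {n : ℕ}

/-- the coordinate functions of the moving direction -/
private noncomputable def lin (c : ℝ) (b : Fin n → ℝ) (z : EE n × ℝ) : ℝ :=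
  c + ∑ k, z.1 k * b k

private theorem lin_cd (c : ℝ) (b : Fin n → ℝ) (z : EE n × ℝ) : ContDiffAt ℝ 2 (lin c b) z := by
  unfold lin
  fun_prop

private theorem lin_fd (c : ℝ) (b : Fin n → ℝ) (z v : EE n × ℝ) :
    fderiv ℝ (lin c b) z v = ∑ k, v.1 k * b k := by
  have h : HasFDerivAt (lin c b)
      (∑ k, (b k) • ((EuclideanSpace.proj k : EE n →L[ℝ] ℝ).comp
        (ContinuousLinearMap.fst ℝ (EE n) ℝ))) z := by
    have h0 : ∀ k : Fin n, HasFDerivAt (fun z : EE n × ℝ => z.1 k * b k)
        ((b k) • ((EuclideanSpace.proj k : EE n →L[ℝ] ℝ).comp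
        (ContinuousLinearMap.fst ℝ (EE n) ℝ))) z := by
      intro k
      have h1 : HasFDerivAt (fun z : EE n × ℝ => z.1 k)
          ((EuclideanSpace.proj k : EE n →L[ℝ] ℝ).comp
            (ContinuousLinearMap.fst ℝ (EE n) ℝ)) z :=
        ((EuclideanSpace.proj k : EE n →L[ℝ] ℝ).comp
            (ContinuousLinearMap.fst ℝ (EE n) ℝ)).hasFDerivAt
      exact h1.mul_const (b k)
    have h2 : HasFDerivAt (fun z : EE n × ℝ => ∑ k, z.1 k * b k) _ z :=
      HasFDerivAt.fun_sum fun k (_ : k ∈ Finset.univ) => h0 k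
    exact h2.const_add c
  rw [h.fderiv]
  simp [mul_comm]

private theorem lin_jg (c : ℝ) (b : Fin n → ℝ) (z : EE n × ℝ) (k : Fin n) :
    jg (lin c b) z k = b k := by
  unfold jg
  rw [lin_fd]
  simp [ee]

private theorem lin_jh (hJA : StJA) (c : ℝ) (b : Fin n → ℝ) (z : EE n × ℝ) :
    jh (lin c b) z = 0 := by
  unfold jh jgg jt
  rw [lin_fd]
  have h : ∀ k : Fin n, (fun z' => jg (lin c b) z' k) = fun _ => b k := by
    intro k
    funext z'
    exact lin_jg c b z' k
  simp only [h]
  have h2 := (hJA n ℝ z).2.1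
  simp [(h2 _).1]

/-- the quadratic form in a moving direction -/
private theorem quad (hJA : StJA) (hJB : StJB) (c : Fin n → ℝ) (B : Fin n → Fin n → ℝ)
    (z : EE n × ℝ) (h : Fin n → Fin n → EE n × ℝ → ℝ) (hc : ∀ i j, ContDiffAt ℝ 2 (h i j) z)
    (hz : z.1 = 0) :
    let N : EE n × ℝ → ℝ := fun z => ∑ i, ∑ j,
      lin (c i) (fun k => B k i) z * lin (c j) (fun k => B k j) z * h i j z
    ContDiffAt ℝ 2 N z ∧ N z = (∑ i, ∑ j, c i * c j * h i j z) ∧
    (∀ k, jg N z k = ∑ i, ∑ j, ((B k i * c j + c i * B k j) * h i j z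
      + c i * c j * jg (h i j) z k)) ∧
    jh N z = ∑ i, ∑ j, ((-2 * ∑ k, B k i * B k j) * h i j z + c i * c j * jh (h i j) z
      - 2 * ∑ k, (B k i * c j + c i * B k j) * jg (h i j) z k) := by
  intro N
  have hv : ∀ i, lin (c i) (fun k => B k i) z = c i := by
    intro i
    unfold lin
    simp [hz]
  have hcV : ∀ i j, ContDiffAt ℝ 2
      (fun z => lin (c i) (fun k => B k i) z * lin (c j) (fun k => B k j) z) z :=
    fun i j => (lin_cd _ _ z).mul (lin_cd _ _ z)
  have hcT : ∀ i j, ContDiffAt ℝ 2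
      (fun z => lin (c i) (fun k => B k i) z * lin (c j) (fun k => B k j) z * h i j z) z :=
    fun i j => (hcV i j).mul (hc i j)
  have hV : ∀ i j, (∀ k, jg (fun z => lin (c i) (fun k => B k i) z *
      lin (c j) (fun k => B k j) z) z k = B k i * c j + c i * B k j) ∧
      jh (fun z => lin (c i) (fun k => B k i) z * lin (c j) (fun k => B k j) z) z
        = -2 * ∑ k, B k i * B k j := by
    intro i j
    obtain ⟨h1, h2⟩ := (hJB n n z).1 (lin (c i) (fun k => B k i)) (lin (c j) (fun k => B k j))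
      (lin_cd _ _ z) (lin_cd _ _ z)
    refine ⟨fun k => ?_, ?_⟩
    · rw [h1 k, lin_jg, lin_jg, hv, hv]
    · rw [h2, lin_jh hJA, lin_jh hJA]
      simp only [lin_jg]
      ring
  have hT : ∀ i j, (∀ k, jg (fun z => lin (c i) (fun k => B k i) z *
      lin (c j) (fun k => B k j) z * h i j z) z k = (B k i * c j + c i * B k j) * h i j z
      + c i * c j * jg (h i j) z k) ∧
      jh (fun z => lin (c i) (fun k => B k i) z * lin (c j) (fun k => B k j) z * h i j z) z
        = (-2 * ∑ k, B k i * B k j) * h i j z + c i * c j * jh (h i j) z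
      - 2 * ∑ k, (B k i * c j + c i * B k j) * jg (h i j) z k := by
    intro i j
    obtain ⟨h1, h2⟩ := (hJB n n z).1 _ (h i j) (hcV i j) (hc i j)
    refine ⟨fun k => ?_, ?_⟩
    · rw [h1 k, (hV i j).1 k]
      simp only [hv]
    · rw [h2, (hV i j).2]
      simp only [hv, (hV i j).1]
  have hcI : ∀ i, ContDiffAt ℝ 2
      (fun z => ∑ j, lin (c i) (fun k => B k i) z * lin (c j) (fun k => B k j) z * h i j z) z :=
    fun i => ContDiffAt.sum fun j _ => hcT i j
  have hS := (hJA n ℝ z).2.2.2.2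
  have hI : ∀ i, (∀ k, jg (fun z => ∑ j, lin (c i) (fun k => B k i) z *
      lin (c j) (fun k => B k j) z * h i j z) z k = ∑ j, ((B k i * c j + c i * B k j) * h i j z
      + c i * c j * jg (h i j) z k)) ∧
      jh (fun z => ∑ j, lin (c i) (fun k => B k i) z * lin (c j) (fun k => B k j) z * h i j z) z
        = ∑ j, ((-2 * ∑ k, B k i * B k j) * h i j z + c i * c j * jh (h i j) z
      - 2 * ∑ k, (B k i * c j + c i * B k j) * jg (h i j) z k) := by
    intro i
    obtain ⟨h1, h2⟩ := hS n (fun j z => lin (c i) (fun k => B k i) z *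
      lin (c j) (fun k => B k j) z * h i j z) (fun j => hcT i j)
    refine ⟨fun k => ?_, ?_⟩
    · rw [h1 k]
      exact Finset.sum_congr rfl fun j _ => (hT i j).1 k
    · rw [h2]
      exact Finset.sum_congr rfl fun j _ => (hT i j).2
  obtain ⟨h1, h2⟩ := hS n (fun i z => ∑ j, lin (c i) (fun k => B k i) z *
      lin (c j) (fun k => B k j) z * h i j z) hcI
  refine ⟨ContDiffAt.sum fun i _ => hcI i, ?_, fun k => ?_, ?_⟩
  · simp only [N, hv]
  · rw [h1 k]
    exact Finset.sum_congr rfl fun i _ => (hI i).1 k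
  · rw [h2]
    exact Finset.sum_congr rfl fun i _ => (hI i).2

private theorem al1 (K : Fin n → Fin n → ℝ) (hK : ∀ i j, K i j = K j i) (c : Fin n → ℝ) (P : ℝ)
    (hc : ∀ i, ∑ j, K i j * c j = P * c i) (b : Fin n → ℝ) :
    ∑ i, ∑ j, (b i * c j + c i * b j) * K i j = 2 * P * ∑ i, b i * c i := by
  have h1 : ∑ i, ∑ j, (b i * c j) * K i j = P * ∑ i, b i * c i := by
    rw [Finset.mul_sum]
    refine Finset.sum_congr rfl fun i _ => ?_
    have e : ∑ j, (b i * c j) * K i j = b i * ∑ j, K i j * c j := by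
      rw [Finset.mul_sum]
      exact Finset.sum_congr rfl fun j _ => by ring
    rw [e, hc]
    ring
  have h2 : ∑ i, ∑ j, (c i * b j) * K i j = P * ∑ i, b i * c i := by
    rw [Finset.sum_comm, ← h1]
    refine Finset.sum_congr rfl fun i _ => Finset.sum_congr rfl fun j _ => ?_
    rw [hK j i]
    ring
  have h3 : ∑ i, ∑ j, (b i * c j + c i * b j) * K i j =
      ∑ i, ∑ j, (b i * c j) * K i j + ∑ i, ∑ j, (c i * b j) * K i j := by
    rw [← Finset.sum_add_distrib]
    refine Finset.sum_congr rfl fun i _ => ?_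
    rw [← Finset.sum_add_distrib]
    exact Finset.sum_congr rfl fun j _ => by ring
  rw [h3, h1, h2]
  ring

private theorem al2 (K : Fin n → Fin n → ℝ) (c : Fin n → ℝ) (P : ℝ)
    (hcc : ∑ i, c i ^ 2 = 1) (hc : ∀ i, ∑ j, K i j * c j = P * c i) :
    ∑ i, ∑ j, c i * c j * K i j = P := by
  have h : ∀ i, ∑ j, c i * c j * K i j = P * c i ^ 2 := by
    intro i
    have e : ∑ j, c i * c j * K i j = c i * ∑ j, K i j * c j := by
      rw [Finset.mul_sum]
      exact Finset.sum_congr rfl fun j _ => by ring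
    rw [e, hc]
    ring
  rw [Finset.sum_congr rfl fun i _ => h i, ← Finset.mul_sum, hcc, mul_one]

private theorem al3 (c : Fin n → ℝ) (d : Fin n → Fin n → ℝ)
    (hd : d = fun i j => if i = j then 1 else 0) :
    ∑ i, ∑ j, c i * c j * d i j = ∑ i, c i ^ 2 := by
  subst hd
  refine Finset.sum_congr rfl fun i _ => ?_
  simp [pow_two]

private theorem al4 (K : Fin n → Fin n → ℝ) (c : Fin n → ℝ) (P : ℝ)
    (hcc : ∑ i, c i ^ 2 = 1) (hc : ∀ i, ∑ j, K i j * c j = P * c i) :
    ∑ i, ∑ j, c i * c j * (∑ a, ∑ b, K a i * K b j * K a b) = P ^ 3 := by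
  have e : ∑ i, ∑ j, c i * c j * (∑ a, ∑ b, K a i * K b j * K a b) =
      ∑ a, ∑ b, (P * c a) * (P * c b) * K a b := by
    have h1 : ∀ a b, (P * c a) * (P * c b) * K a b
        = ∑ i, ∑ j, c i * c j * (K a i * K b j * K a b) := by
      intro a b
      rw [← hc a, ← hc b, Finset.sum_mul_sum, Finset.sum_mul]
      refine Finset.sum_congr rfl fun i _ => ?_
      rw [Finset.sum_mul]
      exact Finset.sum_congr rfl fun j _ => by ring
    simp only [h1, Finset.mul_sum]
    rw [Finset.sum_congr rfl fun i _ => Finset.sum_comm, Finset.sum_comm]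
    refine Finset.sum_congr rfl fun a _ => ?_
    rw [Finset.sum_congr rfl fun i _ => Finset.sum_comm, Finset.sum_comm]
  have h2 : ∑ a, ∑ b, (P * c a) * (P * c b) * K a b = P ^ 2 * ∑ a, ∑ b, c a * c b * K a b := by
    rw [Finset.mul_sum]
    refine Finset.sum_congr rfl fun a _ => ?_
    rw [Finset.mul_sum]
    exact Finset.sum_congr rfl fun b _ => by ring
  rw [e, h2, al2 K c P hcc hc]
  ring

private theorem al5 (K : Fin n → Fin n → ℝ) (c : Fin n → ℝ) (P : ℝ)
    (hcc : ∑ i, c i ^ 2 = 1) (hc : ∀ i, ∑ j, K i j * c j = P * c i) :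
    ∑ i, ∑ j, c i * c j * (∑ k, K k i * K k j) = P ^ 2 := by
  have e : ∑ i, ∑ j, c i * c j * (∑ k, K k i * K k j) =
      ∑ k, (P * c k) * (P * c k) := by
    have h1 : ∀ k, (P * c k) * (P * c k)
        = ∑ i, ∑ j, c i * c j * (K k i * K k j) := by
      intro k
      rw [← hc k, Finset.sum_mul_sum]
      refine Finset.sum_congr rfl fun i _ => ?_
      exact Finset.sum_congr rfl fun j _ => by ring
    simp only [h1, Finset.mul_sum]
    rw [Finset.sum_congr rfl fun i _ => Finset.sum_comm, Finset.sum_comm]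
  have h2 : ∑ k, (P * c k) * (P * c k) = P ^ 2 * ∑ k, c k ^ 2 := by
    rw [Finset.mul_sum]
    exact Finset.sum_congr rfl fun b _ => by ring
  rw [e, h2, hcc]
  ring

end aux

theorem hBLJ (hJA : StJA) (hJB : StJB) (hJD : StJD) (hG1 : StG1) (hG2 : StG2) (hG3 : StG3)
    (hG4 : StG4) : StBLJ := by
  intro n N x₀ L u t₀ hG m ν₀ K a b r2 hm hm0 hν hr2 hx₀ hxν hL hA hjm hhm T hT c P B hc hKc hBc
    U hU β hβ
  obtain ⟨hSym, hSym3, hpA, hpT⟩ := hG1 n N x₀ L u t₀ hG
  have hG2' := hG2 n N x₀ L u t₀ hG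
  obtain ⟨h3a, h3b⟩ := hG3 n N x₀ L u t₀ hG
  have h4 := hG4 n N x₀ L u t₀ hG
  have hcm : ContDiffAt ℝ 2 m (0, t₀) := hm.of_le (WithTop.coe_le_coe.2 (le_top : (2 : ℕ∞) ≤ ⊤))
  have hcA : ∀ i j, ContDiffAt ℝ 2 (fun z => jgg u z i j) (0, t₀) :=
    fun i j => (h3b i j).of_le (by norm_num)
  have hcu : ∀ i, ContDiffAt ℝ 2 (fun z => jg u z i) (0, t₀) :=
    fun i => (h3a i).1.of_le (by norm_num)
  have hνν : (inner ℝ ν₀ ν₀ : ℝ) = 1 := by
    rw [real_inner_self_eq_norm_sq, hν]
    norm_num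
  have hxx : (inner ℝ x₀ x₀ : ℝ) = r2 := by rw [real_inner_self_eq_norm_sq, hx₀]
  have hνx : (inner ℝ ν₀ x₀ : ℝ) = 0 := by rw [real_inner_comm]; exact hxν
  have hr : r2 ≠ 0 := hr2.ne'
  have hAν : ∀ i j, (inner ℝ (jgg u (0, t₀) i j) ν₀ : ℝ) = K i j := by
    intro i j
    rw [hA, inner_sub_left, real_inner_smul_left, real_inner_smul_left, hνν, hxν]
    ring
  have hAx : ∀ i j, (inner ℝ (jgg u (0, t₀) i j) x₀ : ℝ) = -(if i = j then 1 else 0) := by
    intro i j
    rw [hA, inner_sub_left, real_inner_smul_left, real_inner_smul_left, hνx, hxx]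
    split_ifs
    · field_simp
      ring
    · ring
  have hKs : ∀ i j, K i j = K j i := by
    intro i j
    rw [← hAν, ← hAν, hSym i j]
  have hAA : ∀ i j k l, (inner ℝ (jgg u (0, t₀) i j) (jgg u (0, t₀) k l) : ℝ)
      = K i j * K k l + (if i = j then 1 else 0) * (if k = l then 1 else 0) / r2 := by
    intro i j k l
    rw [hA k l, inner_sub_right, real_inner_smul_right, real_inner_smul_right, hAν, hAx]
    split_ifs <;> ring
  have hTs : ∀ k i j, T k i j = T k j i := by
    intro k i j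
    rw [hT]
    show (inner ℝ (jggg u (0, t₀) k i j) ν₀ : ℝ) = inner ℝ (jggg u (0, t₀) k j i) ν₀
    rw [hSym3.2 k i j]
  -- the two families of functions
  set h : Fin n → Fin n → EE n × ℝ → ℝ := fun i j z => inner ℝ (jgg u z i j) (m z) with hh
  set g : Fin n → Fin n → EE n × ℝ → ℝ := fun i j z =>
    (if i = j then 1 else 0) + inner ℝ (jg u z i) (jg u z j) with hg
  have hch : ∀ i j, ContDiffAt ℝ 2 (h i j) (0, t₀) := fun i j => (hcA i j).inner ℝ hcm
  have hcg0 : ∀ i j, ContDiffAt ℝ 2 (fun z => (inner ℝ (jg u z i) (jg u z j) : ℝ)) (0, t₀) :=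
    fun i j => (hcu i).inner ℝ (hcu j)
  have hcg : ∀ i j, ContDiffAt ℝ 2 (g i j) (0, t₀) := fun i j => contDiffAt_const.add (hcg0 i j)
  have hhv : ∀ i j, h i j (0, t₀) = K i j := by
    intro i j
    show (inner ℝ (jgg u (0, t₀) i j) (m (0, t₀)) : ℝ) = K i j
    rw [hm0, hAν]
  have hjJ := (hJB n N ((0 : EE n), t₀)).2
  have hhg : ∀ i j k, jg (h i j) (0, t₀) k = T k i j := by
    intro i j k
    rw [(hjJ _ _ (hcA i j) hcm).1 k, hm0, hjm]
    have e : jg (fun z => jgg u z i j) (0, t₀) k = jggg u (0, t₀) k i j := rfl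
    rw [e, hT]
    simp only [inner_neg_right, inner_sum, real_inner_smul_right, hpA, mul_zero,
      Finset.sum_const_zero, neg_zero, add_zero]
  have hhh : ∀ i j, jh (h i j) (0, t₀) = -2 * (∑ p, ∑ q, K p i * K q j * K p q)
      - 2 * K i j / r2 + a * K i j + b * (if i = j then 1 else 0) := by
    intro i j
    rw [(hjJ _ _ (hcA i j) hcm).2, hm0, hhm, h4]
    have e : ∀ k, jg (fun z => jgg u z i j) (0, t₀) k = jggg u (0, t₀) k i j := fun k => rfl
    have e2 : ∑ k, (inner ℝ (jg (fun z => jgg u z i j) (0, t₀) k) (jg m (0, t₀) k) : ℝ) = 0 := by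
      refine Finset.sum_eq_zero fun k _ => ?_
      rw [e, hjm]
      simp only [inner_neg_right, inner_sum, real_inner_smul_right, hpT, mul_zero,
        Finset.sum_const_zero, neg_zero]
    rw [e2, inner_sub_right, real_inner_smul_right, real_inner_smul_right, hAν, hAx,
      real_inner_smul_left, sum_inner]
    simp only [sum_inner, real_inner_smul_left, hAν, hAA]
    have e3 : ∑ p, ∑ q, (K p i * K q j + (if p = i then (1 : ℝ) else 0) *
        (if q = j then 1 else 0) / r2) * K p q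
        = (∑ p, ∑ q, K p i * K q j * K p q) + K i j / r2 := by
      have e4 : ∑ p, ∑ q, ((if p = i then (1 : ℝ) else 0) *
        (if q = j then 1 else 0) / r2) * K p q = K i j / r2 := by
        rw [Finset.sum_eq_single i, Finset.sum_eq_single j]
        · simp
          ring
        · intro q _ hq
          simp [hq]
        · simp
        · intro p _ hp
          refine Finset.sum_eq_zero fun q _ => ?_
          simp [hp]
        · simp
      rw [← e4, ← Finset.sum_add_distrib]
      refine Finset.sum_congr rfl fun p _ => ?_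
      rw [← Finset.sum_add_distrib]
      exact Finset.sum_congr rfl fun q _ => by ring
    rw [e3]
    ring
  have hu0 : ∀ i, jg u (0, t₀) i = 0 := hG.du0
  have hgv : ∀ i j, g i j (0, t₀) = if i = j then 1 else 0 := by
    intro i j
    show (if i = j then 1 else 0) + (inner ℝ (jg u (0, t₀) i) (jg u (0, t₀) j) : ℝ) = _
    rw [hu0, inner_zero_left, add_zero]
  have hgA := hJA n ℝ ((0 : EE n), t₀)
  have hgg : ∀ i j k, jg (g i j) (0, t₀) k = 0 := by
    intro i j k
    have e := (hgA.2.2.1 (fun _ => if i = j then (1 : ℝ) else 0)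
      (fun z => (inner ℝ (jg u z i) (jg u z j) : ℝ)) contDiffAt_const (hcg0 i j)).1 k
    show jg (fun z => (if i = j then (1 : ℝ) else 0) + inner ℝ (jg u z i) (jg u z j)) (0, t₀) k = 0
    rw [e, (hgA.2.1 _).1, (hjJ _ _ (hcu i) (hcu j)).1 k, hu0, hu0]
    simp
  have hgh : ∀ i j, jh (g i j) (0, t₀) = -2 * (∑ k, K k i * K k j)
      - 2 / r2 * (if i = j then 1 else 0) := by
    intro i j
    have e := (hgA.2.2.1 (fun _ => if i = j then (1 : ℝ) else 0)
      (fun z => (inner ℝ (jg u z i) (jg u z j) : ℝ)) contDiffAt_const (hcg0 i j)).2.1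
    show jh (fun z => (if i = j then (1 : ℝ) else 0) + inner ℝ (jg u z i) (jg u z j)) (0, t₀) = _
    rw [e, (hgA.2.1 _).2, (hjJ _ _ (hcu i) (hcu j)).2, hu0, hu0]
    have e1 : ∀ k l, jg (fun z => jg u z l) (0, t₀) k = jgg u (0, t₀) k l := fun k l => rfl
    simp only [e1, hAA, inner_zero_left, inner_zero_right, zero_add]
    rw [Finset.sum_add_distrib]
    have e4 : ∑ k : Fin n, (if k = i then (1 : ℝ) else 0) * (if k = j then 1 else 0) / r2
        = (if i = j then 1 else 0) / r2 := by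
      rw [Finset.sum_eq_single i]
      · simp
      · intro q _ hq
        simp [hq]
      · simp
    rw [e4]
    ring
  obtain ⟨cN, vN, gN, hN⟩ := quad hJA hJB c B ((0 : EE n), t₀) h hch rfl
  obtain ⟨cE, vE, gE, hE⟩ := quad hJA hJB c B ((0 : EE n), t₀) g hcg rfl
  set Nf : EE n × ℝ → ℝ := fun z => ∑ i, ∑ j,
      lin (c i) (fun k => B k i) z * lin (c j) (fun k => B k j) z * h i j z with hNf
  set Ef : EE n × ℝ → ℝ := fun z => ∑ i, ∑ j,
      lin (c i) (fun k => B k i) z * lin (c j) (fun k => B k j) z * g i j z with hEf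
  have hUl : ∀ z i, U z i = lin (c i) (fun k => B k i) z := by
    intro z i
    rw [hU]
    rfl
  have hβe : β =ᶠ[𝓝 ((0 : EE n), t₀)] (fun z => Nf z / Ef z) := by
    filter_upwards [hG2'] with z hz
    rw [hβ]
    show (∑ i, ∑ j, U z i * U z j * inner ℝ (jgg u z i j) (m z))
        / ‖∑ i, U z i • dv1 (grf x₀ L u z.2) z.1 i‖ ^ 2 = Nf z / Ef z
    congr 1
    · rw [hNf]
      exact Finset.sum_congr rfl fun i _ => Finset.sum_congr rfl fun j _ => by rw [hUl, hUl]
    · rw [← real_inner_self_eq_norm_sq, sum_inner]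
      refine Finset.sum_congr rfl fun i _ => ?_
      rw [inner_sum]
      refine Finset.sum_congr rfl fun j _ => ?_
      rw [real_inner_smul_left, real_inner_smul_right, hUl, hUl]
      have e : (inner ℝ (dv1 (grf x₀ L u z.2) z.1 i) (dv1 (grf x₀ L u z.2) z.1 j) : ℝ)
          = g i j z := hz.2.2.1 i j
      rw [e]
      ring
  have vN' : Nf (0, t₀) = P := by
    rw [vN]
    simp only [hhv]
    exact al2 K c P hc hKc
  have vE' : Ef (0, t₀) = 1 := by
    rw [vE]
    simp only [hgv]
    rw [al3 c _ rfl, hc]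
  have gN' : ∀ k, jg Nf (0, t₀) k = ∑ i, ∑ j, T k i j * (c i * c j) := by
    intro k
    rw [gN k]
    simp only [hhv, hhg, Finset.sum_add_distrib]
    rw [al1 K hKs c P hKc (B k), hBc k]
    simp only [mul_zero, zero_add]
    exact Finset.sum_congr rfl fun i _ => Finset.sum_congr rfl fun j _ => by ring
  have gE' : ∀ k, jg Ef (0, t₀) k = 0 := by
    intro k
    rw [gE k]
    simp only [hgv, hgg, mul_zero, add_zero]
    have := al1 (fun i j : Fin n => if i = j then (1 : ℝ) else 0) (fun i j => by simp [eq_comm]) c 1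
      (fun i => by simp) (B k)
    rw [this, hBc k]
    ring
  have hN' : jh Nf (0, t₀) = a * P + b - 2 * P ^ 3 - 2 * P / r2
      - 2 * (∑ k, ∑ i, ∑ j, K i j * (B k i * B k j))
      - 4 * ∑ k, ∑ i, ∑ j, T k i j * (B k i * c j) := by
    rw [hN]
    simp only [hhv, hhg, hhh]
    have s1 : ∑ i, ∑ j, (-2 * ∑ k, B k i * B k j) * K i j
        = -2 * (∑ k, ∑ i, ∑ j, K i j * (B k i * B k j)) := by
      rw [Finset.mul_sum]
      simp only [Finset.mul_sum, Finset.sum_mul]
      rw [Finset.sum_congr rfl fun i _ => Finset.sum_comm, Finset.sum_comm]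
      exact Finset.sum_congr rfl fun k _ => Finset.sum_congr rfl fun i _ =>
        Finset.sum_congr rfl fun j _ => by ring
    have s2 : ∑ i, ∑ j, c i * c j * (-2 * (∑ p, ∑ q, K p i * K q j * K p q)
      - 2 * K i j / r2 + a * K i j + b * (if i = j then 1 else 0))
        = -2 * P ^ 3 - 2 * P / r2 + a * P + b := by
      have e : ∑ i, ∑ j, c i * c j * (-2 * (∑ p, ∑ q, K p i * K q j * K p q)
      - 2 * K i j / r2 + a * K i j + b * (if i = j then 1 else 0))
          = -2 * (∑ i, ∑ j, c i * c j * (∑ p, ∑ q, K p i * K q j * K p q))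
            + (a - 2 / r2) * (∑ i, ∑ j, c i * c j * K i j)
            + b * (∑ i, ∑ j, c i * c j * (if i = j then 1 else 0)) := by
        rw [Finset.mul_sum, Finset.mul_sum, Finset.mul_sum, ← Finset.sum_add_distrib,
          ← Finset.sum_add_distrib]
        refine Finset.sum_congr rfl fun i _ => ?_
        rw [Finset.mul_sum, Finset.mul_sum, Finset.mul_sum, ← Finset.sum_add_distrib,
          ← Finset.sum_add_distrib]
        exact Finset.sum_congr rfl fun j _ => by ring
      rw [e, al4 K c P hc hKc, al2 K c P hc hKc, al3 c _ rfl, hc]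
      ring
    have s3 : ∑ i, ∑ j, 2 * ∑ k, (B k i * c j + c i * B k j) * T k i j
        = 4 * ∑ k, ∑ i, ∑ j, T k i j * (B k i * c j) := by
      have e1 : ∑ i, ∑ j, 2 * ∑ k, (B k i * c j + c i * B k j) * T k i j
          = ∑ k, (2 * ∑ i, ∑ j, (B k i * c j) * T k i j
            + 2 * ∑ i, ∑ j, (c i * B k j) * T k i j) := by
        simp only [Finset.mul_sum]
        rw [Finset.sum_congr rfl fun i _ => Finset.sum_comm, Finset.sum_comm]
        refine Finset.sum_congr rfl fun k _ => ?_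
        rw [← Finset.sum_add_distrib]
        refine Finset.sum_congr rfl fun i _ => ?_
        rw [← Finset.sum_add_distrib]
        exact Finset.sum_congr rfl fun j _ => by ring
      rw [e1, Finset.mul_sum]
      refine Finset.sum_congr rfl fun k _ => ?_
      have e2 : ∑ i, ∑ j, (c i * B k j) * T k i j = ∑ i, ∑ j, (B k i * c j) * T k i j := by
        rw [Finset.sum_comm]
        refine Finset.sum_congr rfl fun i _ => Finset.sum_congr rfl fun j _ => ?_
        rw [hTs k j i]
        ring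
      rw [e2]
      have e3 : ∑ i, ∑ j, T k i j * (B k i * c j) = ∑ i, ∑ j, (B k i * c j) * T k i j :=
        Finset.sum_congr rfl fun i _ => Finset.sum_congr rfl fun j _ => by ring
      rw [e3]
      ring
    simp only [Finset.sum_sub_distrib, Finset.sum_add_distrib] at s1 s2 s3 ⊢
    rw [s1, s2, s3]
    ring
  have hE' : jh Ef (0, t₀) = -2 * (∑ k, ∑ i, B k i ^ 2) - 2 * P ^ 2 - 2 / r2 := by
    rw [hE]
    simp only [hgv, hgg, hgh, mul_zero, Finset.sum_const_zero, sub_zero]
    have s1 : ∑ i, ∑ j, (-2 * ∑ k, B k i * B k j) * (if i = j then (1 : ℝ) else 0)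
        = -2 * (∑ k, ∑ i, B k i ^ 2) := by
      rw [Finset.sum_comm' (s := Finset.univ) (t := fun _ => Finset.univ) (t' := Finset.univ)
        (s' := fun _ => Finset.univ) (by simp)]
      simp only [mul_ite, mul_one, mul_zero, Finset.sum_ite_eq', Finset.mem_univ, if_true]
      rw [← Finset.mul_sum, Finset.sum_comm]
      congr 1
      exact Finset.sum_congr rfl fun k _ => Finset.sum_congr rfl fun i _ => by ring
    have s2 : ∑ i, ∑ j, c i * c j * (-2 * (∑ k, K k i * K k j)
      - 2 / r2 * (if i = j then 1 else 0)) = -2 * P ^ 2 - 2 / r2 := by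
      have e : ∑ i, ∑ j, c i * c j * (-2 * (∑ k, K k i * K k j)
          - 2 / r2 * (if i = j then 1 else 0))
          = -2 * (∑ i, ∑ j, c i * c j * (∑ k, K k i * K k j))
            + (- 2 / r2) * (∑ i, ∑ j, c i * c j * (if i = j then 1 else 0)) := by
        rw [Finset.mul_sum, Finset.mul_sum, ← Finset.sum_add_distrib]
        refine Finset.sum_congr rfl fun i _ => ?_
        rw [Finset.mul_sum, Finset.mul_sum, ← Finset.sum_add_distrib]
        exact Finset.sum_congr rfl fun j _ => by ring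
      rw [e, al5 K c P hc hKc, al3 c _ rfl, hc]
      ring
    simp only [Finset.sum_add_distrib] at s1 s2 ⊢
    rw [s1, s2]
    ring
  have hE0 : Ef (0, t₀) ≠ 0 := by rw [vE']; exact one_ne_zero
  have hq := (hJD n ((0 : EE n), t₀)).2 Nf Ef cN cE hE0
  have hcq : ContDiffAt ℝ 2 (fun z => Nf z / Ef z) (0, t₀) := cN.div cE hE0
  have hloc := (hgA.1 β (fun z => Nf z / Ef z) hβe)
  refine ⟨hcq.congr_of_eventuallyEq hβe, ?_, fun k => ?_, ?_⟩
  · rw [hβe.self_of_nhds]
    show Nf (0, t₀) / Ef (0, t₀) = P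
    rw [vN', vE', div_one]
  · rw [hloc.1 k, hq.1 k, vN', vE', gE' k, gN' k]
    ring
  · rw [hloc.2.2.2, hq.2, vN', vE', hN', hE']
    simp only [gE', mul_zero, Finset.sum_const_zero]
    rw [Finset.sum_sub_distrib, ← Finset.mul_sum]
    simp
    ring

end Helper28.HSF
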