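import Pool.Agent.Helper35.HSF.StD
import Pool.Agent.Helper64.HSF.M_PRS

/-! # Project HSF, module DEC: decay of the difference of the extremal curvatures -/

set_option autoImplicit false

namespace Helper28.HSF

open Helper35.HSF Helper35.MS Helper35.PI Helper35.PI2 Helper32.CL
open scoped ContDiff Manifold Topology ENNReal BigOperators
open MeasureTheory Set Filter

private theorem rr_anti {n : ℕ} {s t : ℝ} (h : s ≤ t) : rr n t ≤ rr n s := by
  unfold rr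
  have : (0 : ℝ) ≤ n := Nat.cast_nonneg n
  nlinarith

theorem hDEC (hTCD : StTCD) (hCPZ : StCPZ) (hSM : Helper35.PI.StSM) (hI2J : StI2J)
    (hI3J : StI3J) : StDEC := by
  intro n hn1 M _ _ _ _ _ T F ν hF t₁ l l' ht₁ hl' hll hinj hbd
  have hn0 : (0 : ℝ) < n := by exact_mod_cast hn1
  have hmem : ∀ t ∈ Ico t₁ T, t ∈ Ioo 0 T := fun t ht => ⟨ht₁.1.trans_le ht.1, ht.2⟩
  have hr : ∀ t ∈ Ico t₁ T, 0 < rr n t := fun t ht => hF.r0 t (hmem t ht)
  have h11 : t₁ ∈ Ico t₁ T := ⟨le_refl _, ht₁.2⟩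
  -- the bound at the initial time
  obtain ⟨R, hR0, hR⟩ : ∃ R : ℝ, 0 ≤ R ∧ ∀ x, ∀ z ∈ ZS n F ν x t₁, |z| ≤ R := by
    have hK := hCPZ n M (Ioo 0 T) F ν hF t₁ t₁
      (fun s hs => hmem s ⟨hs.1, hs.2.trans_lt ht₁.2⟩)
      (fun s hs => hinj s ⟨hs.1, hs.2.trans_lt ht₁.2⟩)
    have him := hK.image (f := fun p : (M × ℝ) × ℝ => |p.2|) (by fun_prop)
    obtain ⟨R, hR⟩ := him.bddAbove
    refine ⟨max R 0, le_max_right _ _, fun x z hz => le_trans (hR ?_) (le_max_left _ _)⟩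
    exact ⟨((x, t₁), z), ⟨⟨le_refl _, le_refl _⟩, hz⟩, rfl⟩
  set a : ℝ := -(l' / 2) with ha
  have hw : ∀ t ∈ Ico t₁ T, 0 < rr n t ^ a := fun t ht => Real.rpow_pos_of_pos (hr t ht) _
  set C : ℝ := (2 * R + 1) / rr n t₁ ^ a with hC
  have hC0 : 0 < C := div_pos (by linarith) (hw t₁ h11)
  have hC1 : C * rr n t₁ ^ a = 2 * R + 1 := div_mul_cancel₀ _ (hw t₁ h11).ne'
  set y : ℝ → ℝ := fun t => C * rr n t ^ a with hy
  have hy0 : ∀ t ∈ Ico t₁ T, 0 < y t := fun t ht => mul_pos hC0 (hw t ht)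
  have hrd : ∀ t, HasDerivAt (fun s => rr n s) (-(2 * n)) t := by
    intro t
    unfold rr
    have h := ((hasDerivAt_id t).const_mul (2 * (n : ℝ))).const_sub 1
    simpa using h
  have hrcd : ContDiff ℝ 2 (fun s => rr n s) := by
    unfold rr
    fun_prop
  have hrc : Continuous (fun s => rr n s) := hrcd.continuous
  have hycd : ∀ t ∈ Ico t₁ T, ContDiffAt ℝ 2 y t := by
    intro t ht
    exact contDiffAt_const.mul (hrcd.contDiffAt.rpow_const_of_ne (hr t ht).ne')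
  have hyd : ∀ t ∈ Ico t₁ T, HasDerivAt y (n * l' * y t / rr n t) t := by
    intro t ht
    have h := ((hrd t).rpow_const (p := a) (Or.inl (hr t ht).ne')).const_mul C
    refine h.congr_deriv ?_
    have e : rr n t ^ (a - 1) = rr n t ^ a / rr n t := Real.rpow_sub_one (hr t ht).ne' _
    rw [e, hy, ha]
    field_simp
  refine ⟨C, hC0, ?_⟩
  have hmain : ∀ t₂ ∈ Ico t₁ T, ∀ t, t₁ ≤ t → t ≤ t₂ →
      (∀ x, ∀ z₁ ∈ ZS n F ν x t, ∀ z₂ ∈ ZS n F ν x t, z₁ - z₂ < y t) := by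
    intro t₂ ht₂
    have hIco : ∀ t, t₁ ≤ t → t ≤ t₂ → t ∈ Ico t₁ T := fun t h1 h2 => ⟨h1, h2.trans_lt ht₂.2⟩
    refine Helper64.HSF.cont_ind (fun t => ∀ x, ∀ z₁ ∈ ZS n F ν x t, ∀ z₂ ∈ ZS n F ν x t,
      z₁ - z₂ < y t) t₁ t₂ ht₂.1 ?_ ?_ ?_
    · intro x z₁ h₁ z₂ h₂
      have e1 := abs_le.1 (hR x z₁ h₁)
      have e2 := abs_le.1 (hR x z₂ h₂)
      show z₁ - z₂ < C * rr n t₁ ^ a
      rw [hC1]
      linarith [e1.2, e2.1]
    · intro t ht1 ht2 hA
      have htI := hIco t ht1.le ht2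
      have htJ := hmem t htI
      have hweak : ∀ x, ∀ z₁ ∈ ZS n F ν x t, ∀ z₂ ∈ ZS n F ν x t, z₁ - z₂ ≤ y t := by
        intro x z₁ hz₁ z₂ hz₂
        obtain ⟨ζ₁, hζ₁, hm₁⟩ := Helper64.HSF.approx hSM hI2J hI3J hF htJ x z₁ hz₁
        obtain ⟨ζ₂, hζ₂, hm₂⟩ := Helper64.HSF.approx hSM hI2J hI3J hF htJ x z₂ hz₂
        have hl1 : Tendsto (fun s => ζ₁ s - ζ₂ s) (𝓝 t) (𝓝 (z₁ - z₂)) := hζ₁.sub hζ₂
        have hr1 : Tendsto y (𝓝 t) (𝓝 (y t)) := (hycd t htI).continuousAt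
        refine le_of_tendsto_of_tendsto (hl1.mono_left nhdsWithin_le_nhds)
          (hr1.mono_left (nhdsWithin_le_nhds (s := Iio t))) ?_
        have h5 : ∀ᶠ s in 𝓝[<] t, t₁ < s ∧ s < t := Ioo_mem_nhdsLT ht1
        filter_upwards [h5, hm₁.filter_mono nhdsWithin_le_nhds,
          hm₂.filter_mono nhdsWithin_le_nhds] with s hs hs₁ hs₂
        exact (hA s hs.1.le hs.2 x _ hs₁ _ hs₂).le
      intro x z₁ hz₁ z₂ hz₂
      rcases (hweak x z₁ hz₁ z₂ hz₂).eq_or_lt with he | hlt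
      · exfalso
        refine hTCD n M (Ioo 0 T) F ν hF x t htJ y (n * l' * y t / rr n t) (hycd t htI)
          (hyd t htI) (hy0 t htI) ?_ z₁ hz₁ z₂ hz₂ he ?_
        · have h1 := hbd t htI x
          have h2 := hr t htI
          have h3 := hy0 t htI
          rw [lt_div_iff₀ h2]
          have h4 : (rr n t * h2N n F x t) * y t ≤ (n * l) * y t :=
            mul_le_mul_of_nonneg_right h1 h3.le
          have h5 : (n * l) * y t < (n * l') * y t :=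
            mul_lt_mul_of_pos_right (mul_lt_mul_of_pos_left hll hn0) h3
          linarith
        · have h7 : ∀ᶠ p : M × ℝ in 𝓝 (x, t), t₁ < p.2 :=
            continuous_snd.continuousAt.eventually (lt_mem_nhds ht1)
          filter_upwards [h7] with p hp hpt w₁ hw₁ w₂ hw₂
          rcases hpt.eq_or_lt with h8 | h8
          · rw [h8] at hw₁ hw₂ ⊢
            exact hweak p.1 w₁ hw₁ w₂ hw₂
          · exact (hA p.2 hp.le h8 p.1 w₁ hw₁ w₂ hw₂).le
      · exact hlt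
    · intro t ht1 ht2 hA
      have htI := hIco t ht1 ht2.le
      have hAt := hA t ht1 (le_refl _)
      have hK := hCPZ n M (Ioo 0 T) F ν hF t t₂
        (fun s hs => hmem s (hIco s (ht1.trans hs.1) hs.2))
        (fun s hs => hinj s (hIco s (ht1.trans hs.1) hs.2))
      set K : Set ((M × ℝ) × ℝ) :=
        {p : (M × ℝ) × ℝ | p.1.2 ∈ Icc t t₂ ∧ p.2 ∈ ZS n F ν p.1.1 p.1.2} with hKdef
      set yt : ℝ → ℝ := fun s => C * (max (rr n s) (rr n t₂)) ^ a with hyt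
      have hytc : Continuous yt := by
        refine continuous_const.mul (Continuous.rpow_const (hrc.max continuous_const) ?_)
        intro s
        left
        exact (lt_max_of_lt_right (hr t₂ ht₂)).ne'
      have hyte : ∀ s, s ≤ t₂ → yt s = y s := by
        intro s hs
        show C * (max (rr n s) (rr n t₂)) ^ a = C * rr n s ^ a
        rw [max_eq_left (rr_anti hs)]
      set B : Set (((M × ℝ) × ℝ) × ((M × ℝ) × ℝ)) := {w | w.1.1 = w.2.1} ∩
        {w | yt w.1.1.2 ≤ w.1.2 - w.2.2} with hBdef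
      have hBc : IsClosed B := by
        refine IsClosed.inter ?_ ?_
        · exact isClosed_eq (by fun_prop) (by fun_prop)
        · have hκ' : Continuous (fun w : ((M × ℝ) × ℝ) × ((M × ℝ) × ℝ) => yt w.1.1.2) :=
            hytc.comp (by fun_prop)
          exact isClosed_le hκ' (by fun_prop)
      have hcomp : IsCompact ((K ×ˢ K) ∩ B) := (hK.prod hK).inter_right hBc
      have himg : IsCompact ((fun w : ((M × ℝ) × ℝ) × ((M × ℝ) × ℝ) => w.1.1.2) ''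
          ((K ×ˢ K) ∩ B)) := hcomp.image (by fun_prop)
      have hnot : t ∉ (fun w : ((M × ℝ) × ℝ) × ((M × ℝ) × ℝ) => w.1.1.2) ''
          ((K ×ˢ K) ∩ B) := by
        rintro ⟨w, ⟨⟨hw1, hw2⟩, hw3, hw4⟩, hw5⟩
        have hw3' : w.1.1 = w.2.1 := hw3
        have hw5' : w.1.1.2 = t := hw5
        have hw4' : yt w.1.1.2 ≤ w.1.2 - w.2.2 := hw4
        have hz1 : w.1.2 ∈ ZS n F ν w.1.1.1 w.1.1.2 := hw1.2
        have hz2 : w.2.2 ∈ ZS n F ν w.2.1.1 w.2.1.2 := hw2.2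
        rw [← hw3'] at hz2
        rw [hw5'] at hz1 hz2 hw4'
        have h9 := hAt _ _ hz1 _ hz2
        rw [hyte t ht2.le] at hw4'
        linarith
      have hfar : ∀ᶠ s in 𝓝 t, s ∉ (fun w : ((M × ℝ) × ℝ) × ((M × ℝ) × ℝ) => w.1.1.2) ''
          ((K ×ˢ K) ∩ B) := himg.isClosed.isOpen_compl.mem_nhds hnot
      obtain ⟨δ, hδ, hδb⟩ := Metric.eventually_nhds_iff.1 hfar
      refine ⟨min δ (t₂ - t), lt_min hδ (by linarith), fun s hs1 hs2 => ?_⟩
      have hs3 : s < t + δ := lt_of_lt_of_le hs2 (by linarith [min_le_left δ (t₂ - t)])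
      have hs4 : s < t₂ := lt_of_lt_of_le hs2 (by linarith [min_le_right δ (t₂ - t)])
      intro x z₁ hz₁ z₂ hz₂
      by_contra hcon
      have hcon' : y s ≤ z₁ - z₂ := not_lt.1 hcon
      have h10 : s ∉ (fun w : ((M × ℝ) × ℝ) × ((M × ℝ) × ℝ) => w.1.1.2) ''
          ((K ×ˢ K) ∩ B) := by
        apply hδb
        rw [Real.dist_eq, abs_lt]
        constructor
        · linarith
        · linarith
      apply h10
      refine ⟨(((x, s), z₁), ((x, s), z₂)), ⟨⟨⟨⟨hs1.le, hs4.le⟩, hz₁⟩,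
        ⟨⟨hs1.le, hs4.le⟩, hz₂⟩⟩, rfl, ?_⟩, rfl⟩
      show yt s ≤ z₁ - z₂
      rw [hyte s hs4.le]
      exact hcon'
  intro t ht x z₁ h₁ z₂ h₂
  exact (hmain t ht t ht.1 (le_refl _) x z₁ h₁ z₂ h₂).le

end Helper28.HSF
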