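import Mathlib
import Pool.Agent.Helper35.HSF.StG

/-! # Project HSF, module GIJ: infinite time, the limit map is injective -/

set_option autoImplicit false

namespace Helper28.HSF

open Helper35.HSF Helper35.MS Helper35.PI Helper35.PI2 Helper32.CL
open scoped ContDiff Manifold Topology ENNReal BigOperators
open MeasureTheory Set Filter

private theorem gij_rr (n : ℕ) (s : ℝ) : HasDerivAt (fun s : ℝ => rr n s) (-(2 * n)) s := by
  have h1 : HasDerivAt (fun s : ℝ => 1 - 2 * (n : ℝ) * s) (-(2 * n)) s := by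
    simpa using ((hasDerivAt_id s).const_mul (2 * (n : ℝ))).const_sub 1
  exact h1

private theorem gij_b (n : ℕ) (s : ℝ) (hs : 0 < rr n s) :
    HasDerivAt (fun s : ℝ => 1 / Real.sqrt (rr n s))
      (1 / Real.sqrt (rr n s) * (n / rr n s)) s := by
  have h2 : HasDerivAt (fun s : ℝ => Real.sqrt (rr n s))
      (-(2 * (n : ℝ)) / (2 * Real.sqrt (rr n s))) s :=
    (gij_rr n s).sqrt hs.ne'
  have hr : 0 < Real.sqrt (rr n s) := Real.sqrt_pos.mpr hs
  have h3 := h2.inv hr.ne'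
  have hrr : Real.sqrt (rr n s) ^ 2 = rr n s := Real.sq_sqrt hs.le
  have e : -(-(2 * (n : ℝ)) / (2 * Real.sqrt (rr n s))) / Real.sqrt (rr n s) ^ 2 =
      1 / Real.sqrt (rr n s) * (n / rr n s) := by
    rw [hrr]
    field_simp
  rw [e] at h3
  have e2 : (fun s : ℝ => 1 / Real.sqrt (rr n s)) =
      (fun s : ℝ => Real.sqrt (rr n s))⁻¹ := by
    funext s
    simp
  rw [e2]
  exact h3

/-- the chord identity -/
private theorem gij_ch {N : ℕ} {M : Type} (F ν : M → ℝ → EE N) (x y : M) (t r : ℝ) (hr : 0 < r)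
    (hne : F y t ≠ F x t) :
    (inner ℝ ((1 / Real.sqrt r) • F y t - (1 / Real.sqrt r) • F x t) (ν x t) : ℝ) =
      zch F ν x y t * Real.sqrt r *
        ‖(1 / Real.sqrt r) • F y t - (1 / Real.sqrt r) • F x t‖ ^ 2 / 2 := by
  have hs : 0 < Real.sqrt r := Real.sqrt_pos.2 hr
  have hd : ‖F y t - F x t‖ ≠ 0 := (norm_pos_iff.2 (sub_ne_zero.2 hne)).ne'
  rw [← smul_sub, real_inner_smul_left, norm_smul, Real.norm_eq_abs,
    abs_of_pos (by positivity : 0 < 1 / Real.sqrt r)]
  unfold zch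
  field_simp

theorem hGIJ (hEVF : StEVF) (hHNB : StHNB) : StGIJ := by
  intro n hn M _ _ _ T F ν hF hT C α t₁ hC hα ht₁ hyp hinj G C' β hβ hG x y hxy
  by_contra hne
  have hJ : ∀ t ∈ Ico t₁ T, t ∈ Ioo 0 T := fun t ht => ⟨ht₁.1.trans_le ht.1, ht.2⟩
  have hn0 : (0 : ℝ) < n := by exact_mod_cast hn
  have hrrp : ∀ t, t < T → 0 < rr n t := by
    intro t ht
    have : rr n t = 2 * n * (T - t) := by
      unfold rr
      rw [mul_sub, hT]
    rw [this]
    have : 0 < T - t := by linarith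
    positivity
  set Φ : M → ℝ → EE (n + 2) := fun q t => (1 / Real.sqrt (rr n t)) • F q t with hΦ
  have hder : ∀ q : M, ∀ t ∈ Ico t₁ T, HasDerivAt (fun t => Φ q t)
      ((1 / Real.sqrt (rr n t)) • (Hs n F ν q t • ν q t)) t := by
    intro q t ht
    have h1 := (gij_b n t (hrrp t ht.2)).smul (hF.mcf.flow q t (hJ t ht))
    obtain ⟨-, -, h2⟩ := hEVF n hn M (Ioo 0 T) F ν hF
    obtain ⟨h3, -⟩ := h2 q t (hJ t ht)
    have e : (1 / Real.sqrt (rr n t)) • (Hs n F ν q t • ν q t) =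
        (1 / Real.sqrt (rr n t)) • HH (n := n) F q t +
        (1 / Real.sqrt (rr n t) * (n / rr n t)) • F q t := by
      rw [h3, smul_sub, smul_smul (1 / Real.sqrt (rr n t)) (n / rr n t)]
      abel
    rw [e]
    exact h1
  have hHs : ∀ q : M, ∀ t ∈ Ico t₁ T, |Hs n F ν q t| ≤ n * (C * rr n t ^ (α - 1 / 2)) := by
    intro q t ht
    have hp : 0 < rr n t ^ (α - 1 / 2) := Real.rpow_pos_of_pos (hrrp t ht.2) _
    refine abs_le_of_sq_le_sq ?_ (by positivity)
    obtain ⟨h0, h1, -, -, -, -, h2⟩ := hHNB n hn M (Ioo 0 T) F ν hF q t (hJ t ht)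
    have h3 := h2 (C * rr n t ^ (α - 1 / 2)) (fun c hc => hyp t ht q _ (Or.inr ⟨c, hc, rfl⟩))
    have h4 := mul_le_mul_of_nonneg_left h3 hn0.le
    nlinarith [h1, h4]
  set D : ℝ → ℝ := fun t => ‖Φ y t - Φ x t‖ ^ 2 with hD
  have hDpos : ∀ t ∈ Ico t₁ T, 0 < D t := by
    intro t ht
    have h1 : F y t ≠ F x t := fun h => hne (hinj t ht h.symm)
    have h2 : Φ y t - Φ x t ≠ 0 := by
      show (1 / Real.sqrt (rr n t)) • F y t - (1 / Real.sqrt (rr n t)) • F x t ≠ 0
      rw [← smul_sub]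
      have hs : 0 < Real.sqrt (rr n t) := Real.sqrt_pos.2 (hrrp t ht.2)
      exact smul_ne_zero (by positivity) (sub_ne_zero.2 h1)
    have h3 : 0 < ‖Φ y t - Φ x t‖ := norm_pos_iff.2 h2
    show 0 < ‖Φ y t - Φ x t‖ ^ 2
    positivity
  have hDd : ∀ t ∈ Ico t₁ T, ∃ D' : ℝ, HasDerivAt D D' t ∧
      -(2 * n * C ^ 2 * rr n t ^ (2 * α - 1)) * D t ≤ D' := by
    intro t ht
    have hr := hrrp t ht.2
    have hs : 0 < Real.sqrt (rr n t) := Real.sqrt_pos.2 hr
    have h1 := ((hder y t ht).sub (hder x t ht)).norm_sq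
    refine ⟨_, h1, ?_⟩
    have hnF : F y t ≠ F x t := fun h => hne (hinj t ht h.symm)
    have e1 := gij_ch F ν x y t (rr n t) hr hnF
    have e2 := gij_ch F ν y x t (rr n t) hr hnF.symm
    have e3 : (inner ℝ (Φ y t - Φ x t) (ν x t) : ℝ) =
      zch F ν x y t * Real.sqrt (rr n t) * D t / 2 := e1
    have e4 : (inner ℝ (Φ y t - Φ x t) (ν y t) : ℝ) =
      -(zch F ν y x t * Real.sqrt (rr n t) * D t / 2) := by
      have e5 : (inner ℝ (Φ x t - Φ y t) (ν y t) : ℝ) =
        zch F ν y x t * Real.sqrt (rr n t) * ‖Φ x t - Φ y t‖ ^ 2 / 2 := e2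
      have e6 : Φ y t - Φ x t = -(Φ x t - Φ y t) := by abel
      rw [e6, inner_neg_left, e5, norm_sub_rev (Φ x t) (Φ y t)]
    have e7 : 2 * (inner ℝ ((fun t => Φ y t) t - (fun t => Φ x t) t)
        ((1 / Real.sqrt (rr n t)) • (Hs n F ν y t • ν y t) -
          (1 / Real.sqrt (rr n t)) • (Hs n F ν x t • ν x t)) : ℝ)
        = -(Hs n F ν y t * zch F ν y x t + Hs n F ν x t * zch F ν x y t) * D t := by
      show 2 * (inner ℝ (Φ y t - Φ x t)
        ((1 / Real.sqrt (rr n t)) • (Hs n F ν y t • ν y t) -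
          (1 / Real.sqrt (rr n t)) • (Hs n F ν x t • ν x t)) : ℝ) = _
      rw [inner_sub_right, real_inner_smul_right, real_inner_smul_right, real_inner_smul_right,
        real_inner_smul_right, e3, e4]
      field_simp
      ring
    have hDp := (hDpos t ht).le
    set w : ℝ := rr n t ^ (α - 1 / 2) with hw
    have hwp : 0 < w := Real.rpow_pos_of_pos hr _
    have hww : rr n t ^ (2 * α - 1) = w ^ 2 := by
      rw [hw, ← Real.rpow_natCast, ← Real.rpow_mul hr.le]
      congr 1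
      push_cast
      ring
    have z1 : |zch F ν x y t| ≤ C * w := hyp t ht x _ (Or.inl ⟨y, hnF, rfl⟩)
    have z2 : |zch F ν y x t| ≤ C * w := hyp t ht y _ (Or.inl ⟨x, hnF.symm, rfl⟩)
    have b1 : |Hs n F ν y t * zch F ν y x t| ≤ (n * (C * w)) * (C * w) := by
      rw [abs_mul]
      exact mul_le_mul (hHs y t ht) z2 (abs_nonneg _) (by positivity)
    have b2 : |Hs n F ν x t * zch F ν x y t| ≤ (n * (C * w)) * (C * w) := by
      rw [abs_mul]
      exact mul_le_mul (hHs x t ht) z1 (abs_nonneg _) (by positivity)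
    have b3 : Hs n F ν y t * zch F ν y x t + Hs n F ν x t * zch F ν x y t ≤
        2 * n * C ^ 2 * w ^ 2 := by
      have c1 := le_abs_self (Hs n F ν y t * zch F ν y x t)
      have c2 := le_abs_self (Hs n F ν x t * zch F ν x y t)
      nlinarith
    have b4 : -(2 * n * C ^ 2 * rr n t ^ (2 * α - 1)) * D t ≤
        -(Hs n F ν y t * zch F ν y x t + Hs n F ν x t * zch F ν x y t) * D t := by
      rw [hww]
      exact mul_le_mul_of_nonneg_right (neg_le_neg b3) hDp
    exact b4.trans (le_of_eq e7.symm)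
  set W : ℝ → ℝ := fun t => Real.exp (-(C ^ 2 / (2 * α)) * rr n t ^ (2 * α)) with hW
  have hWd : ∀ t ∈ Ico t₁ T,
      HasDerivAt W (W t * (2 * n * C ^ 2 * rr n t ^ (2 * α - 1))) t := by
    intro t ht
    have h3 : HasDerivAt (fun s : ℝ => (rr n s) ^ (2 * α))
        (-(2 * (n : ℝ)) * (2 * α) * (rr n t) ^ (2 * α - 1)) t :=
      (gij_rr n t).rpow_const (Or.inl (hrrp t ht.2).ne')
    have h4 := (h3.const_mul (-(C ^ 2 / (2 * α)))).exp
    refine h4.congr_deriv ?_
    show W t * _ = W t * _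
    congr 1
    field_simp
  have hWpos : ∀ t, 0 < W t := fun t => Real.exp_pos _
  have hWle : ∀ t, t < T → W t ≤ 1 := by
    intro t ht
    have h0 : 0 ≤ rr n t ^ (2 * α) := (Real.rpow_pos_of_pos (hrrp t ht) _).le
    refine Real.exp_le_one_iff.2 ?_
    have : 0 ≤ C ^ 2 / (2 * α) * rr n t ^ (2 * α) := by positivity
    linarith
  have hmono : MonotoneOn (fun t => D t * W t) (Ico t₁ T) := by
    refine monotoneOn_of_deriv_nonneg (convex_Ico _ _) ?_ ?_ ?_
    · intro t ht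
      obtain ⟨D', hD', -⟩ := hDd t ht
      exact (hD'.mul (hWd t ht)).continuousAt.continuousWithinAt
    · intro t ht
      have ht' := interior_subset ht
      obtain ⟨D', hD', -⟩ := hDd t ht'
      exact (hD'.mul (hWd t ht')).differentiableAt.differentiableWithinAt
    · intro t ht
      have ht' := interior_subset ht
      obtain ⟨D', hD', hle⟩ := hDd t ht'
      have hdd : deriv (fun t => D t * W t) t =
          D' * W t + D t * (W t * (2 * n * C ^ 2 * rr n t ^ (2 * α - 1))) :=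
        (hD'.mul (hWd t ht')).deriv
      rw [hdd]
      have h5 := mul_le_mul_of_nonneg_right hle (hWpos t).le
      nlinarith
  have h11 : t₁ ∈ Ico t₁ T := ⟨le_refl _, ht₁.2⟩
  have hlow : ∀ t ∈ Ico t₁ T, D t₁ * W t₁ ≤ D t := by
    intro t ht
    have h6 : D t₁ * W t₁ ≤ D t * W t := hmono h11 ht ht.1
    have h7 : D t * W t ≤ D t * 1 := mul_le_mul_of_nonneg_left (hWle t ht.2) (hDpos t ht).le
    linarith
  have hup : ∀ t ∈ Ico t₁ T, D t ≤ (2 * C' * rr n t ^ β) ^ 2 := by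
    intro t ht
    have h1 := hG t ht x
    have h2 := hG t ht y
    have h3 : ‖Φ y t - Φ x t‖ ≤ 2 * C' * rr n t ^ β := by
      have e : Φ y t - Φ x t = (Φ y t - G y) - (Φ x t - G x) := by
        rw [hxy]
        abel
      rw [e]
      refine (norm_sub_le _ _).trans ?_
      have h1' : ‖Φ x t - G x‖ ≤ C' * rr n t ^ β := h1
      have h2' : ‖Φ y t - G y‖ ≤ C' * rr n t ^ β := h2
      linarith
    exact pow_le_pow_left₀ (norm_nonneg _) h3 2
  have hT0 : rr n T = 0 := by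
    unfold rr
    rw [hT]
    ring
  have hrt : Tendsto (fun t => rr n t) (𝓝[<] T) (𝓝 0) := by
    have h1 := (gij_rr n T).continuousAt.tendsto
    rw [hT0] at h1
    exact h1.mono_left nhdsWithin_le_nhds
  have htend : Tendsto (fun t => (2 * C' * rr n t ^ β) ^ 2) (𝓝[<] T) (𝓝 0) := by
    have h2 : Tendsto (fun t => (rr n t) ^ β) (𝓝[<] T) (𝓝 0) := by
      have := ((Real.continuous_rpow_const hβ.le).tendsto 0).comp hrt
      rwa [Real.zero_rpow hβ.ne'] at this
    have h3 := (h2.const_mul (2 * C')).pow 2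
    simpa using h3
  have hfin : D t₁ * W t₁ ≤ 0 := by
    refine ge_of_tendsto htend ?_
    filter_upwards [Ioo_mem_nhdsLT ht₁.2] with t ht
    have ht' : t ∈ Ico t₁ T := ⟨ht.1.le, ht.2⟩
    exact (hlow t ht').trans (hup t ht')
  have := mul_pos (hDpos t₁ h11) (hWpos t₁)
  linarith

end Helper28.HSF
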